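import Pool.Agent.H300R2.BH.BHfin
import Pool.Agent.Helper256.KM.Mertens

/-!
Corollaries: almost all polynomials without fixed prime divisor satisfy the asymptotic formula.
-/

namespace Pool.Agent.H300R2.BH

open Finset Polynomial Filter
open Pool.Agent.H442R2.EHI (evt_log_pow evt_log_ge)
open Pool.Agent.H338R2.BH (rho_le_deg)

/-- lower bound for the truncated Euler product -/
lemma SS_lower (j : ℕ) (hj : 1 ≤ j) : ∃ c : ℝ, 0 < c ∧ ∀ z : ℕ, 3 ≤ z → ∀ F : ℤ[X],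
    F.natDegree ≤ j → (∀ p : ℕ, p.Prime → p ≤ z → rho F p ≠ p) →
    c / Real.log z ^ (2 * j) ≤ SS z F := by
  obtain ⟨C, hC⟩ := Pool.Agent.Helper256.KM.mertens_inv
  refine ⟨(1 / (2 * (j:ℝ))) ^ (2 * j) * Real.exp (-(2 * j * C)), by positivity, ?_⟩
  intro z hz F hF hbad
  have hj1 : (1:ℝ) ≤ j := by exact_mod_cast hj
  have hj0 : (0:ℝ) < j := by linarith
  have hzr : (3:ℝ) ≤ z := by exact_mod_cast hz
  have hlz : 1 ≤ Real.log z := by
    rw [Real.le_log_iff_exp_le (by linarith)]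
    have := Real.exp_one_lt_d9
    linarith
  -- lower bound of a factor
  have hfac : ∀ p ∈ (Icc 1 z).filter Nat.Prime,
      (if p ≤ 2 * j then 1 / (2 * (j:ℝ)) else 1) * Real.exp (-(2 * j * (1 / (p:ℝ)))) ≤
      (1 - (rho F p : ℝ) / p) / (1 - 1 / (p : ℝ)) := by
    intro p hp
    rw [mem_filter, mem_Icc] at hp
    have hp2 : (2:ℝ) ≤ p := by exact_mod_cast hp.2.two_le
    have hp0 : (0:ℝ) < p := by linarith
    have hne := hbad p hp.2 hp.1.2
    have hle := rho_le F p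
    have h4 : 1 / (p:ℝ) ≤ 1 / 2 := one_div_le_one_div_of_le (by norm_num) hp2
    have h40 : 0 < 1 / (p:ℝ) := by positivity
    have h5 : (0:ℝ) < 1 - 1 / (p:ℝ) := by linarith
    have h6 : 1 - (rho F p : ℝ) / p ≤ (1 - (rho F p : ℝ) / p) / (1 - 1 / (p : ℝ)) := by
      have h7 : 0 ≤ 1 - (rho F p : ℝ) / p := by
        have : (rho F p : ℝ) / p ≤ 1 := by
          rw [div_le_one hp0]; exact_mod_cast hle
        linarith
      rw [le_div_iff₀ h5]
      nlinarith
    refine le_trans ?_ h6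
    split_ifs with h
    · have h8 : Real.exp (-(2 * j * (1 / (p:ℝ)))) ≤ 1 := by
        rw [Real.exp_le_one_iff]
        have : 0 ≤ 2 * (j:ℝ) * (1 / p) := by positivity
        linarith
      have h9 : 1 / (2 * (j:ℝ)) ≤ 1 - (rho F p : ℝ) / p := by
        have h10 : (rho F p : ℝ) + 1 ≤ p := by
          have : rho F p + 1 ≤ p := by omega
          exact_mod_cast this
        have h11 : 1 / (2 * (j:ℝ)) ≤ 1 / p := by
          apply one_div_le_one_div_of_le hp0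
          have : (p:ℝ) ≤ ((2 * j : ℕ) : ℝ) := by exact_mod_cast h
          push_cast at this
          exact this
        have h12 : 1 - (rho F p : ℝ) / p = (p - rho F p) / p := by field_simp
        rw [h12]
        refine h11.trans ?_
        apply div_le_div_of_nonneg_right _ hp0.le
        linarith
      calc 1 / (2 * (j:ℝ)) * Real.exp (-(2 * j * (1 / (p:ℝ)))) ≤ 1 / (2 * (j:ℝ)) * 1 := by
            apply mul_le_mul_of_nonneg_left h8 (by positivity)
        _ ≤ _ := by rw [mul_one]; exact h9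
    · rw [one_mul]
      push Not at h
      have hrj := rho_le_deg F p j hp.2 hF hne
      have hpj : 2 * (j:ℝ) < p := by exact_mod_cast h
      set t : ℝ := j / p with ht
      have ht0 : 0 ≤ t := by positivity
      have ht1 : t ≤ 1 / 2 := by
        rw [ht, div_le_div_iff₀ hp0 (by norm_num)]; linarith
      have h13 : Real.exp (-(2 * j * (1 / (p:ℝ)))) ≤ 1 - t := by
        have h14 : -(2 * (j:ℝ) * (1 / (p:ℝ))) = -(2 * t) := by rw [ht]; ring
        rw [h14, Real.exp_neg, inv_le_comm₀ (Real.exp_pos _) (by linarith)]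
        have h15 : (1 - t)⁻¹ ≤ 2 * t + 1 := by
          rw [inv_le_iff_one_le_mul₀ (by linarith)]
          nlinarith
        exact h15.trans (Real.add_one_le_exp _)
      refine h13.trans ?_
      have : (rho F p : ℝ) / p ≤ t := by
        rw [ht]
        apply div_le_div_of_nonneg_right _ hp0.le
        exact_mod_cast hrj
      linarith
  have hprod : ∏ p ∈ (Icc 1 z).filter Nat.Prime,
      ((if p ≤ 2 * j then 1 / (2 * (j:ℝ)) else 1) * Real.exp (-(2 * j * (1 / (p:ℝ))))) ≤ SS z F := by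
    unfold SS
    apply Finset.prod_le_prod
    · intro p _
      split_ifs <;> positivity
    · exact hfac
  refine le_trans ?_ hprod
  rw [prod_mul_distrib]
  have h1 : (1 / (2 * (j:ℝ))) ^ (2 * j) ≤ ∏ p ∈ (Icc 1 z).filter Nat.Prime,
      (if p ≤ 2 * j then 1 / (2 * (j:ℝ)) else 1) := by
    rw [← prod_filter, prod_const]
    apply pow_le_pow_of_le_one (by positivity)
    · rw [div_le_one (by positivity)]; linarith
    · calc (((Icc 1 z).filter Nat.Prime).filter (fun p => p ≤ 2 * j)).card ≤ (Icc 1 (2 * j)).card := by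
            apply card_le_card
            intro p hp
            rw [mem_filter, mem_filter, mem_Icc] at hp
            rw [mem_Icc]
            exact ⟨hp.1.1.1, hp.2⟩
        _ = 2 * j := by simp
  have h2 : Real.exp (-(2 * j * C)) / Real.log z ^ (2 * j) ≤
      ∏ p ∈ (Icc 1 z).filter Nat.Prime, Real.exp (-(2 * j * (1 / (p:ℝ)))) := by
    rw [← Real.exp_sum]
    have h3 : ∑ p ∈ (Icc 1 z).filter Nat.Prime, -(2 * (j:ℝ) * (1 / (p:ℝ))) =
        -(2 * j * ∑ p ∈ (Icc 1 z).filter Nat.Prime, 1 / (p:ℝ)) := by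
      rw [sum_neg_distrib, ← mul_sum]
    rw [h3]
    have h4 := (abs_le.mp (hC z hz)).2
    have h5 : Real.exp (-(2 * j * C)) / Real.log z ^ (2 * j) =
        Real.exp (-(2 * j * (Real.log (Real.log z) + C))) := by
      have h6 : Real.log z ^ (2 * j) = Real.exp (2 * j * Real.log (Real.log z)) := by
        have h7 : 2 * (j:ℝ) * Real.log (Real.log z) = Real.log (Real.log z ^ (2 * j)) := by
          rw [Real.log_pow]; push_cast; ring
        rw [h7, Real.exp_log (by positivity)]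
      rw [h6, ← Real.exp_sub]
      congr 1
      ring
    rw [h5]
    apply Real.exp_le_exp.mpr
    have : 2 * (j:ℝ) * (∑ p ∈ (Icc 1 z).filter Nat.Prime, 1 / (p:ℝ)) ≤
        2 * j * (Real.log (Real.log z) + C) := by
      apply mul_le_mul_of_nonneg_left _ (by positivity)
      linarith
    linarith
  calc (1 / (2 * (j:ℝ))) ^ (2 * j) * Real.exp (-(2 * j * C)) / Real.log z ^ (2 * j)
      = (1 / (2 * (j:ℝ))) ^ (2 * j) * (Real.exp (-(2 * j * C)) / Real.log z ^ (2 * j)) := by ring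
    _ ≤ _ := mul_le_mul h1 h2 (by positivity) (by
        apply prod_nonneg; intro p _; split_ifs <;> positivity)

/-- main term is large -/
lemma lF_lower (j : ℕ) (hj : 1 ≤ j) (E0 : ℕ) : ∃ B x0 : ℕ, ∀ x : ℕ, x0 ≤ x →
    ∀ (K D A a0 : ℕ) (R : ℤ[X]) (σ : ℤ), 2 ≤ K → Real.log x ^ B ≤ D →
    BoxP j x K D A a0 σ → (x : ℝ) ≤ D * (K : ℝ) ^ j * Real.log x ^ E0 →
    (∀ k ∈ Icc 1 K, |((R.eval (k : ℤ) : ℤ) : ℝ)| ≤ (K : ℝ) ^ j / Real.log x ^ B) →
    ∀ a ∈ Ioc a0 (a0 + A), ∀ d ∈ Ioc D (2 * D),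
    K / (4 * Real.log x) ≤ lF (FF R j σ a d) K := by
  have hev : ∀ᶠ x : ℕ in atTop, 3 ≤ x ∧ 2 * 2 ^ j + 4 ≤ Real.log x := by
    filter_upwards [eventually_ge_atTop 3, evt_log_ge (2 * 2 ^ j + 4)] with x h1 h2
    exact ⟨h1, h2⟩
  obtain ⟨x0, hx0⟩ := eventually_atTop.mp hev
  refine ⟨1, x0, fun x hx K D A a0 R σ hK2 hLD hboxP hxDK hR a ha d hd => ?_⟩
  obtain ⟨hx3, hL⟩ := hx0 x hx
  set L := Real.log x with hLdef
  have h2j : (1:ℝ) ≤ 2 ^ j := one_le_pow₀ (by norm_num)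
  have hL0 : 0 < L := by linarith
  rw [pow_one] at hLD hR
  have hxr : (3:ℝ) ≤ x := by exact_mod_cast hx3
  have hD0 : (0:ℝ) < D := lt_of_lt_of_le hL0 hLD
  have hKr : (2:ℝ) ≤ K := by exact_mod_cast hK2
  have hKj : (2:ℝ) ^ j ≤ (K:ℝ) ^ j := by gcongr
  have hKj0 : (0:ℝ) < (K:ℝ) ^ j := by positivity
  have hDn : 1 ≤ D := by
    have : (0:ℝ) < D := hD0
    have : 0 < D := by exact_mod_cast this
    omega
  rw [mem_Ioc] at ha hd
  have hda : (D:ℝ) ≤ d := by exact_mod_cast hd.1.le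
  have hdb : (d:ℝ) ≤ 2 * D := by exact_mod_cast hd.2
  -- values
  have hval : ∀ k ∈ Icc 1 K, K ≤ 2 * k → 2 ≤ (FF R j σ a d).eval (k : ℤ) ∧
      (FF R j σ a d).eval (k : ℤ) ≤ x := by
    intro k hk h2k
    have hRk := abs_le.mp (hR k hk)
    have hRK : (K:ℝ) ^ j / L ≤ (K:ℝ) ^ j := div_le_self hKj0.le (by linarith)
    rw [mem_Icc] at hk
    have hkK : (k:ℝ) ≤ K := by exact_mod_cast hk.2
    have h2k' : (K:ℝ) ≤ 2 * k := by exact_mod_cast h2k
    have hkj : (K:ℝ) ^ j ≤ 2 ^ j * (k:ℝ) ^ j := by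
      rw [← mul_pow]; gcongr
    have hdk2 : (d:ℝ) * (k:ℝ) ^ j ≤ 2 * D * (K:ℝ) ^ j := by gcongr
    have hF : (((FF R j σ a d).eval (k : ℤ) : ℤ) : ℝ) =
        a + ((R.eval (k : ℤ) : ℤ) : ℝ) + σ * d * (k:ℝ) ^ j := by
      rw [FF_eval]; push_cast; ring
    have key : (2:ℝ) ≤ (((FF R j σ a d).eval (k : ℤ) : ℤ) : ℝ) ∧
        (((FF R j σ a d).eval (k : ℤ) : ℤ) : ℝ) ≤ x := by
      rw [hF]
      rcases hboxP with ⟨rfl, h3⟩ | ⟨rfl, h3, h4⟩
      · have h8 : ((1 : ℤ) : ℝ) = 1 := by norm_num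
        rw [h8, one_mul]
        have ha0 : (0:ℝ) ≤ a := Nat.cast_nonneg _
        have h3' : (a0:ℝ) + A + 2 * D * (K:ℝ) ^ j + (K:ℝ) ^ j ≤ x := by exact_mod_cast h3
        have ha2 : (a:ℝ) ≤ a0 + A := by exact_mod_cast ha.2
        constructor
        · have h5 : (K:ℝ) ^ j / L ≤ (k:ℝ) ^ j / 2 := by
            rw [div_le_div_iff₀ hL0 (by norm_num)]
            have hk0 : (0:ℝ) ≤ (k:ℝ) ^ j := by positivity
            nlinarith
          have hL4 : (4:ℝ) ≤ D := by linarith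
          have hk1 : (1:ℝ) ≤ (k:ℝ) ^ j := one_le_pow₀ (by exact_mod_cast hk.1)
          have h6 : 4 * (k:ℝ) ^ j ≤ d * (k:ℝ) ^ j := by
            gcongr; linarith
          linarith [hRk.1]
        · linarith [hRk.2]
      · have h8 : ((-1 : ℤ) : ℝ) = -1 := by norm_num
        rw [h8]
        have h3' : (4:ℝ) * D * (K:ℝ) ^ j ≤ a0 := by exact_mod_cast h3
        have h4' : (a0:ℝ) + A + (K:ℝ) ^ j ≤ x := by exact_mod_cast h4
        have ha1 : (a0:ℝ) ≤ a := by exact_mod_cast ha.1.le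
        have ha2 : (a:ℝ) ≤ a0 + A := by exact_mod_cast ha.2
        have hD1 : (1:ℝ) ≤ D := by exact_mod_cast hDn
        have h5 : (K:ℝ) ^ j ≤ D * (K:ℝ) ^ j := le_mul_of_one_le_left hKj0.le hD1
        have h0 : 0 ≤ (d:ℝ) * (k:ℝ) ^ j := by positivity
        have h6 : (2:ℝ) ≤ (K:ℝ) ^ j := by
          calc (2:ℝ) = 2 ^ 1 := by norm_num
            _ ≤ 2 ^ j := pow_le_pow_right₀ (by norm_num) hj
            _ ≤ _ := hKj
        constructor
        · linarith [hRk.1]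
        · linarith [hRk.2]
    constructor
    · exact_mod_cast key.1
    · exact_mod_cast key.2
  -- the sum
  unfold lF
  have hsub : (Icc 1 K).filter (fun k => K ≤ 2 * k) ⊆
      (Icc 1 K).filter (fun k : ℕ => 2 ≤ (FF R j σ a d).eval (k : ℤ)) := by
    intro k hk
    rw [mem_filter] at hk ⊢
    exact ⟨hk.1, (hval k hk.1 hk.2).1⟩
  have hterm : ∀ k : ℕ, 2 ≤ (FF R j σ a d).eval (k : ℤ) →
      0 ≤ 1 / Real.log (((FF R j σ a d).eval (k : ℤ) : ℤ) : ℝ) := by
    intro k hk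
    have h1 : (2:ℝ) ≤ (((FF R j σ a d).eval (k : ℤ) : ℤ) : ℝ) := by exact_mod_cast hk
    have := Real.log_nonneg (by linarith : (1:ℝ) ≤ (((FF R j σ a d).eval (k : ℤ) : ℤ) : ℝ))
    positivity
  have hcard : (K:ℝ) / 4 ≤ (((Icc 1 K).filter (fun k => K ≤ 2 * k)).card : ℝ) := by
    have h1 : Ioc (K / 2) K ⊆ (Icc 1 K).filter (fun k => K ≤ 2 * k) := by
      intro k hk
      rw [mem_Ioc] at hk
      rw [mem_filter, mem_Icc]
      omega
    have h2 := card_le_card h1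
    rw [Nat.card_Ioc] at h2
    have h3 : K ≤ 4 * ((Icc 1 K).filter (fun k => K ≤ 2 * k)).card := by omega
    have h4 : (K:ℝ) ≤ 4 * (((Icc 1 K).filter (fun k => K ≤ 2 * k)).card : ℝ) := by exact_mod_cast h3
    linarith
  calc K / (4 * L) = (K / 4) * (1 / L) := by field_simp
    _ ≤ (((Icc 1 K).filter (fun k => K ≤ 2 * k)).card : ℝ) * (1 / L) := by gcongr
    _ = ∑ k ∈ (Icc 1 K).filter (fun k => K ≤ 2 * k), 1 / L := by
        rw [sum_const, nsmul_eq_mul]
    _ ≤ ∑ k ∈ (Icc 1 K).filter (fun k => K ≤ 2 * k),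
        1 / Real.log (((FF R j σ a d).eval (k : ℤ) : ℤ) : ℝ) := by
        refine sum_le_sum fun k hk => ?_
        rw [mem_filter] at hk
        obtain ⟨h1, h2⟩ := hval k hk.1 hk.2
        have h3 : (2:ℝ) ≤ (((FF R j σ a d).eval (k : ℤ) : ℤ) : ℝ) := by exact_mod_cast h1
        have h4 : (((FF R j σ a d).eval (k : ℤ) : ℤ) : ℝ) ≤ x := by exact_mod_cast h2
        apply one_div_le_one_div_of_le (Real.log_pos (by linarith))
        exact Real.log_le_log (by linarith) h4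
    _ ≤ _ := sum_le_sum_of_subset_of_nonneg hsub fun k hk _ => hterm k (mem_filter.mp hk).2

open Classical in
/-- **Bateman-Horn for almost all polynomials `a + R(k) + σ d k^j` in short boxes.** -/
theorem bh_all (j : ℕ) (hj : 1 ≤ j) (ε : ℝ) (hε : 0 < ε) (E0 U : ℕ) : ∃ E' : ℕ, ∀ E : ℕ, E' ≤ E →
    ∃ B x0 : ℕ, ∀ x : ℕ, x0 ≤ x → ∀ (K D A a0 : ℕ) (R : ℤ[X]) (σ : ℤ), R.natDegree < j →
    BoxP j x K D A a0 σ → (x : ℝ) ≤ D * (K : ℝ) ^ j * Real.log x ^ E0 → (x : ℝ) ^ ε ≤ K →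
    x * Real.log x ^ B ≤ (A : ℝ) * D →
    (∀ k ∈ Icc 1 K, |((R.eval (k : ℤ) : ℤ) : ℝ)| ≤ (K : ℝ) ^ j / Real.log x ^ B) →
    ∑ a ∈ Ioc a0 (a0 + A), ∑ d ∈ Ioc D (2 * D),
      |pv (FF R j σ a d) K - SS ⌊Real.log x ^ E⌋₊ (FF R j σ a d) * lF (FF R j σ a d) K| ≤
      A * D * K / Real.log x ^ U ∧
    ((((Ioc a0 (a0 + A)) ×ˢ (Ioc D (2 * D))).filter (fun ad : ℕ × ℕ =>
      (∀ p : ℕ, p.Prime → p ≤ ⌊Real.log x ^ E⌋₊ → rho (FF R j σ ad.1 ad.2) p ≠ p) ∧
      SS ⌊Real.log x ^ E⌋₊ (FF R j σ ad.1 ad.2) * lF (FF R j σ ad.1 ad.2) K / Real.log x ^ U <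
      |pv (FF R j σ ad.1 ad.2) K -
        SS ⌊Real.log x ^ E⌋₊ (FF R j σ ad.1 ad.2) * lF (FF R j σ ad.1 ad.2) K|)).card : ℝ) ≤
      A * D / Real.log x ^ U := by
  obtain ⟨E', hE'⟩ := bh j hj ε hε E0 (2 * U + 3)
  refine ⟨E' + 1, fun E hE => ?_⟩
  obtain ⟨B1, x1, hbh⟩ := hE' E (by omega)
  obtain ⟨c, hc, hSS⟩ := SS_lower j hj
  obtain ⟨B2, x2, hlow⟩ := lF_lower j hj E0
  have hlogs : ∀ᶠ x : ℕ in atTop, (E * Real.log (Real.log x)) ^ (2 * j) * 4 ≤ c * Real.log x := by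
    have h1 : (fun t : ℝ => Real.log t ^ (2 * j)) =o[atTop] fun t : ℝ => t :=
      Real.isLittleO_pow_log_id_atTop
    have h2 := h1.bound (show (0:ℝ) < c / (4 * (1 + E) ^ (2 * j)) by positivity)
    have h3 := (Real.tendsto_log_atTop.comp (tendsto_natCast_atTop_atTop (R := ℝ))).eventually h2
    filter_upwards [h3, evt_log_ge (Real.exp 1)] with x hx hx2
    simp only [Function.comp] at hx
    have ht0 : 0 < Real.log x := lt_of_lt_of_le (Real.exp_pos 1) hx2
    have hl : 1 ≤ Real.log (Real.log x) := by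
      rw [Real.le_log_iff_exp_le ht0]; exact hx2
    rw [Real.norm_of_nonneg (by positivity), Real.norm_of_nonneg ht0.le] at hx
    calc (E * Real.log (Real.log x)) ^ (2 * j) * 4
        ≤ ((1 + E) * Real.log (Real.log x)) ^ (2 * j) * 4 := by
          gcongr
          linarith
      _ = (4 * (1 + E) ^ (2 * j)) * Real.log (Real.log x) ^ (2 * j) := by
          rw [mul_pow]; ring
      _ ≤ (4 * (1 + E) ^ (2 * j)) * (c / (4 * (1 + E) ^ (2 * j)) * Real.log x) := by gcongr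
      _ = c * Real.log x := by field_simp
  have hev : ∀ᶠ x : ℕ in atTop, x1 ≤ x ∧ x2 ≤ x ∧ 3 ≤ x ∧ 4 ≤ Real.log x ∧
      (E * Real.log (Real.log x)) ^ (2 * j) * 4 ≤ c * Real.log x ∧ 2 ≤ (x:ℝ) ^ ε := by
    filter_upwards [eventually_ge_atTop x1, eventually_ge_atTop x2, eventually_ge_atTop 3,
      evt_log_ge 4, hlogs, evt_log_pow 1 ε hε] with x h1 h2 h3 h4 h5 h6
    refine ⟨h1, h2, h3, h4, h5, ?_⟩
    rw [pow_one] at h6
    linarith
  obtain ⟨x0, hx0⟩ := eventually_atTop.mp hev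
  refine ⟨B1 + B2, x0, fun x hx K D A a0 R σ hRj hboxP hxDK hxK hAD hR => ?_⟩
  obtain ⟨hx1, hx2, hx3, hL, hll, h2x⟩ := hx0 x hx
  set L := Real.log x with hLdef
  have hL0 : 0 < L := by linarith
  have hL1 : 1 ≤ L := by linarith
  have hLp0 : ∀ n : ℕ, 0 < L ^ n := fun n => by positivity
  have hLp : ∀ n : ℕ, 1 ≤ L ^ n := fun n => one_le_pow₀ hL1
  have hLmono : ∀ m n : ℕ, m ≤ n → L ^ m ≤ L ^ n := fun m n h => pow_le_pow_right₀ hL1 h
  have hxr : (3:ℝ) ≤ x := by exact_mod_cast hx3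
  have hx0' : (0:ℝ) < x := by linarith
  have haA : a0 + A ≤ x := by rcases hboxP with ⟨-, h3⟩ | ⟨-, h3, h4⟩ <;> omega
  have hAx : (A:ℝ) ≤ x := by exact_mod_cast (by omega : A ≤ x)
  have hLBD : L ^ (B1 + B2) ≤ D := by
    have h1 : (x:ℝ) * L ^ (B1 + B2) ≤ x * D := hAD.trans (by gcongr)
    exact le_of_mul_le_mul_left h1 hx0'
  have hK2 : 2 ≤ K := by
    have : (2:ℝ) ≤ K := h2x.trans hxK
    exact_mod_cast this
  have hKr : (2:ℝ) ≤ K := by exact_mod_cast hK2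
  have hRB : ∀ B0 : ℕ, B0 ≤ B1 + B2 → ∀ k ∈ Icc 1 K, |((R.eval (k : ℤ) : ℤ) : ℝ)| ≤
      (K : ℝ) ^ j / L ^ B0 := by
    intro B0 hB0 k hk
    refine (hR k hk).trans ?_
    apply div_le_div_of_nonneg_left (by positivity) (hLp0 _) (hLmono _ _ hB0)
  have hmean := hbh x hx1 K D A a0 R σ hRj hboxP hxDK hxK
    (le_trans (by gcongr; omega) hAD) (hRB B1 (by omega))
  have hlF := hlow x hx2 K D A a0 R σ hK2 ((hLmono _ _ (by omega)).trans hLBD) hboxP hxDK
    (hRB B2 (by omega))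
  set z := ⌊L ^ E⌋₊ with hz
  have hzle : (z:ℝ) ≤ L ^ E := Nat.floor_le (by positivity)
  have hz3 : 3 ≤ z := by
    apply Nat.le_floor
    push_cast
    calc (3:ℝ) ≤ L ^ 1 := by rw [pow_one]; linarith
      _ ≤ L ^ E := hLmono _ _ (by omega)
  have hzr : (3:ℝ) ≤ z := by exact_mod_cast hz3
  have hdeg : ∀ a d : ℕ, (FF R j σ a d).natDegree ≤ j := by
    intro a d
    unfold FF
    refine (natDegree_add_le _ _).trans (max_le ?_ ?_)
    · refine (natDegree_add_le _ _).trans (max_le ?_ (by omega))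
      rw [natDegree_C]; omega
    · exact (natDegree_C_mul_X_pow_le _ _)
  constructor
  · refine hmean.trans ?_
    apply div_le_div_of_nonneg_left (by positivity) (hLp0 _) (hLmono _ _ (by omega))
  · set P := ((Ioc a0 (a0 + A)) ×ˢ (Ioc D (2 * D))).filter (fun ad : ℕ × ℕ =>
      (∀ p : ℕ, p.Prime → p ≤ z → rho (FF R j σ ad.1 ad.2) p ≠ p) ∧
      SS z (FF R j σ ad.1 ad.2) * lF (FF R j σ ad.1 ad.2) K / L ^ U <
      |pv (FF R j σ ad.1 ad.2) K -
        SS z (FF R j σ ad.1 ad.2) * lF (FF R j σ ad.1 ad.2) K|) with hP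
    have hmain : ∀ ad ∈ P, K / L ^ (U + 3) ≤ |pv (FF R j σ ad.1 ad.2) K -
        SS z (FF R j σ ad.1 ad.2) * lF (FF R j σ ad.1 ad.2) K| := by
      intro ad had
      rw [hP, mem_filter, mem_product] at had
      obtain ⟨⟨ha, hd⟩, hb, hlt⟩ := had
      refine le_trans ?_ hlt.le
      have h1 := hSS z hz3 _ (hdeg ad.1 ad.2) hb
      have h2 := hlF ad.1 ha ad.2 hd
      have hlogz : Real.log z ≤ E * Real.log L := by
        rw [← Real.log_pow]
        exact Real.log_le_log (by linarith) hzle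
      have hlogz0 : 0 < Real.log z := Real.log_pos (by linarith)
      have h3 : 4 / L ≤ SS z (FF R j σ ad.1 ad.2) := by
        refine le_trans ?_ h1
        rw [div_le_div_iff₀ hL0 (by positivity)]
        calc 4 * Real.log z ^ (2 * j) ≤ 4 * (E * Real.log L) ^ (2 * j) := by gcongr
          _ = (E * Real.log L) ^ (2 * j) * 4 := by ring
          _ ≤ c * L := hll
      have hSS0 : 0 ≤ SS z (FF R j σ ad.1 ad.2) := le_trans (by positivity) h3
      calc K / L ^ (U + 3) ≤ (4 / L) * (K / (4 * L)) / L ^ U := by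
            rw [show U + 3 = U + 2 + 1 by ring, pow_succ, pow_add]
            have : (4 / L) * (K / (4 * L)) / L ^ U = K / (L ^ U * L ^ 2) := by
              field_simp
            rw [this]
            apply div_le_div_of_nonneg_left (by positivity) (by positivity)
            exact le_mul_of_one_le_right (by positivity) hL1
        _ ≤ SS z (FF R j σ ad.1 ad.2) * lF (FF R j σ ad.1 ad.2) K / L ^ U := by
            gcongr
    have hcount : (P.card : ℝ) * (K / L ^ (U + 3)) ≤ A * D * K / L ^ (2 * U + 3) := by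
      refine le_trans ?_ hmean
      rw [← sum_product']
      calc (P.card : ℝ) * (K / L ^ (U + 3)) = ∑ ad ∈ P, K / L ^ (U + 3) := by
            rw [sum_const, nsmul_eq_mul]
        _ ≤ ∑ ad ∈ P, |pv (FF R j σ ad.1 ad.2) K -
            SS z (FF R j σ ad.1 ad.2) * lF (FF R j σ ad.1 ad.2) K| := sum_le_sum hmain
        _ ≤ _ := sum_le_sum_of_subset_of_nonneg (filter_subset _ _) fun _ _ _ => abs_nonneg _
    have hKL : 0 < K / L ^ (U + 3) := by positivity
    have h5 : (P.card : ℝ) * (K / L ^ (U + 3)) ≤ (A * D / L ^ U) * (K / L ^ (U + 3)) := by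
      refine hcount.trans (le_of_eq ?_)
      rw [show 2 * U + 3 = U + (U + 3) by ring, pow_add L U (U + 3)]
      field_simp
    exact le_of_mul_le_mul_right h5 hKL

end Pool.Agent.H300R2.BH
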