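import Pool.Agent.H300R2.BH.BHmain

/-!
Bateman-Horn for almost all polynomials `a + R(k) + σ d k^j` in short boxes.
-/

namespace Pool.Agent.H300R2.BH

open Finset Polynomial Filter
open Pool.Agent.H469R2.NK (e norm_e e_add conj_e e_zero)
open Pool.Agent.H442R2.EHI (norm_add_sq_le evt_log_pow evt_log_ge ff gg ff_fourier ff_sq ff_bound
  ff_zero_of_gt)
open Pool.Agent.H465R2.BH (modelP)
open Pool.Agent.H475R2.BH (gq_eq)

theorem bh (j : ℕ) (hj : 1 ≤ j) (ε : ℝ) (hε : 0 < ε) (E0 U : ℕ) : ∃ E' : ℕ, ∀ E : ℕ, E' ≤ E →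
    ∃ B x0 : ℕ, ∀ x : ℕ, x0 ≤ x → ∀ (K D A a0 : ℕ) (R : ℤ[X]) (σ : ℤ), R.natDegree < j →
    BoxP j x K D A a0 σ → (x : ℝ) ≤ D * (K : ℝ) ^ j * Real.log x ^ E0 → (x : ℝ) ^ ε ≤ K →
    x * Real.log x ^ B ≤ (A : ℝ) * D →
    (∀ k ∈ Icc 1 K, |((R.eval (k : ℤ) : ℤ) : ℝ)| ≤ (K : ℝ) ^ j / Real.log x ^ B) →
    ∑ a ∈ Ioc a0 (a0 + A), ∑ d ∈ Ioc D (2 * D),
      |pv (FF R j σ a d) K - SS ⌊Real.log x ^ E⌋₊ (FF R j σ a d) * lF (FF R j σ a d) K| ≤
      A * D * K / Real.log x ^ U := by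
  classical
  set E2 := U + 4 with hE2
  obtain ⟨E1, E3, B1, x1, hE1, hcore⟩ := core j hj ε hε E0 (E2 + 1) (2 * U + E0 + 8)
    (8 * j + 2 * (U + 3) + 8)
  refine ⟨E1, fun E hE => ?_⟩
  obtain ⟨B2, x2, hsing⟩ := sing j hj ε hε (U + 3) E1 E hE1 hE
  obtain ⟨x3, hggm⟩ := gg_mean j hj ε hε E1
  obtain ⟨x4, hff⟩ := ff_fourier E1 E3
  obtain ⟨C, hC⟩ := ff_sq
  set B := B1 + B2 + 2 * E1 + E0 + j * (E2 + 1) + U + 8 with hB
  have hloglog : ∀ᶠ x : ℕ in atTop, (1 + E1 * Real.log (Real.log x)) ^ 2 ≤ Real.log x := by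
    have h1 : (fun t : ℝ => Real.log t ^ 2) =o[atTop] fun t : ℝ => t :=
      Real.isLittleO_pow_log_id_atTop
    have h2 := h1.bound (show (0:ℝ) < 1 / ((1 + E1) ^ 2) by positivity)
    have h3 := (Real.tendsto_log_atTop.comp (tendsto_natCast_atTop_atTop (R := ℝ))).eventually h2
    filter_upwards [h3, evt_log_ge (Real.exp 1)] with x hx hx2
    simp only [Function.comp] at hx
    have ht0 : 0 < Real.log x := lt_of_lt_of_le (Real.exp_pos 1) hx2
    have hl : 1 ≤ Real.log (Real.log x) := by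
      rw [Real.le_log_iff_exp_le ht0]; exact hx2
    rw [Real.norm_of_nonneg (by positivity), Real.norm_of_nonneg ht0.le] at hx
    calc (1 + E1 * Real.log (Real.log x)) ^ 2
        ≤ ((1 + E1) * Real.log (Real.log x)) ^ 2 := by
          gcongr
          nlinarith [(Nat.cast_nonneg E1 : (0:ℝ) ≤ E1)]
      _ = ((1 + E1) ^ 2) * Real.log (Real.log x) ^ 2 := by
          rw [mul_pow]
      _ ≤ ((1 + E1) ^ 2) * (1 / ((1 + E1) ^ 2) * Real.log x) := by gcongr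
      _ = Real.log x := by field_simp
  have hev : ∀ᶠ x : ℕ in atTop, x1 ≤ x ∧ x2 ≤ x ∧ x3 ≤ x ∧ x4 ≤ x ∧ 3 ≤ x ∧
      1000 * (j + 1) ≤ Real.log x ∧ 2 * |C| ≤ Real.log x ∧
      Real.log x ^ (2 * E1 + E0 + j * (E2 + 1) + E2 + 4) ≤ (x : ℝ) ^ ε ∧
      Real.log x ^ (8 * E1) ≤ (x:ℝ) ^ (1:ℝ) ∧ Real.log x ^ (E0 + j * (E2 + 1) + 2) ≤ (x:ℝ) ^ (1:ℝ) ∧
      (1 + E1 * Real.log (Real.log x)) ^ 2 ≤ Real.log x := by
    filter_upwards [eventually_ge_atTop (max (max x1 x2) (max x3 x4)), eventually_ge_atTop 3,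
      evt_log_ge (1000 * (j + 1)), evt_log_ge (2 * |C|),
      evt_log_pow (2 * E1 + E0 + j * (E2 + 1) + E2 + 4) ε hε, evt_log_pow (8 * E1) 1 (by norm_num),
      evt_log_pow (E0 + j * (E2 + 1) + 2) 1 (by norm_num), hloglog]
      with x h1 h2 h3 h4 h5 h6 h7 h8
    exact ⟨((le_max_left _ _).trans (le_max_left _ _)).trans h1,
      ((le_max_right _ _).trans (le_max_left _ _)).trans h1,
      ((le_max_left _ _).trans (le_max_right _ _)).trans h1,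
      ((le_max_right _ _).trans (le_max_right _ _)).trans h1, h2, h3, h4, h5, h6, h7, h8⟩
  obtain ⟨x0, hx0⟩ := eventually_atTop.mp hev
  refine ⟨B, x0, fun x hx K D A a0 R σ hRj hboxP hxDK hxK hAD hR => ?_⟩
  obtain ⟨hx1, hx2, hx3, hx4, hx3', hL, hCL, hLε, hL8, hLy, hll⟩ := hx0 x hx
  set L := Real.log x with hLdef
  have hj1 : (1:ℝ) ≤ j := by exact_mod_cast hj
  have hL1000 : (1000:ℝ) ≤ L := by nlinarith
  have hL0 : 0 < L := by linarith
  have hL1 : 1 ≤ L := by linarith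
  have hLp0 : ∀ n : ℕ, 0 < L ^ n := fun n => by positivity
  have hLp : ∀ n : ℕ, 1 ≤ L ^ n := fun n => one_le_pow₀ hL1
  have hLmono : ∀ m n : ℕ, m ≤ n → L ^ m ≤ L ^ n := fun m n h => pow_le_pow_right₀ hL1 h
  have hxr : (3:ℝ) ≤ x := by exact_mod_cast hx3'
  have hx0' : (0:ℝ) < x := by linarith
  rw [Real.rpow_one] at hL8 hLy
  have haA : a0 + A ≤ x := by rcases hboxP with ⟨-, h3⟩ | ⟨-, h3, h4⟩ <;> omega
  have hA0 : (0:ℝ) < A := by
    have h1 : 0 < (A:ℝ) * D := lt_of_lt_of_le (by positivity) hAD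
    by_contra hneg
    push Not at hneg
    have : (0:ℝ) ≤ D := Nat.cast_nonneg _
    nlinarith
  have hAxn : A ≤ x := by omega
  have hAx : (A:ℝ) ≤ x := by exact_mod_cast hAxn
  have hLBD : L ^ B ≤ D := by
    have h1 : (x:ℝ) * L ^ B ≤ x * D := hAD.trans (by gcongr)
    exact le_of_mul_le_mul_left h1 hx0'
  have hD1 : (1:ℝ) ≤ D := (hLp B).trans hLBD
  have hD1n : 1 ≤ D := by exact_mod_cast hD1
  have hD0 : (0:ℝ) < D := by linarith
  have hbox := boxP_box hD1n hboxP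
  have hσ := box_sigma hbox
  have hDK := box_DK hbox
  have hDK' : (D:ℝ) * (K:ℝ) ^ j ≤ x := by exact_mod_cast hDK
  have hK1r : (1:ℝ) ≤ K := ((hLp _).trans hLε).trans hxK
  have hKpos : (0:ℝ) < K := by linarith
  have hK1n : 1 ≤ K := by exact_mod_cast hK1r
  have hKj : (0:ℝ) < (K:ℝ) ^ j := by positivity
  have hKj1 : (K:ℝ) ≤ (K:ℝ) ^ j := le_self_pow₀ hK1r (by omega)
  have hKjA : (K:ℝ) ^ j * L ^ B ≤ A := by
    have h1 : (D:ℝ) * ((K:ℝ) ^ j * L ^ B) ≤ D * A := by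
      calc (D:ℝ) * ((K:ℝ) ^ j * L ^ B) = (D * (K:ℝ) ^ j) * L ^ B := by ring
        _ ≤ x * L ^ B := by gcongr
        _ ≤ A * D := hAD
        _ = D * A := by ring
    exact le_of_mul_le_mul_left h1 hD0
  have hxA : (x:ℝ) ^ ε ≤ A := by
    calc (x:ℝ) ^ ε ≤ K := hxK
      _ ≤ (K:ℝ) ^ j := hKj1
      _ ≤ (K:ℝ) ^ j * L ^ B := le_mul_of_one_le_right hKj.le (hLp B)
      _ ≤ A := hKjA
  -- `K1`
  set K1 := ⌊(K:ℝ) / L ^ E2⌋₊ with hK1
  have hK1le : (K1:ℝ) ≤ K / L ^ E2 := Nat.floor_le (by positivity)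
  have hK1K : K1 ≤ K := by
    have : (K1:ℝ) ≤ K := hK1le.trans (div_le_self (by positivity) (hLp _))
    exact_mod_cast this
  have hKK1 : (K:ℝ) ≤ K1 * L ^ (E2 + 1) := by
    have h1 : (K:ℝ) / L ^ E2 < K1 + 1 := Nat.lt_floor_add_one _
    have h2 : L ≤ (K:ℝ) / L ^ E2 := by
      rw [le_div_iff₀ (hLp0 _)]
      calc L * L ^ E2 = L ^ (E2 + 1) := by ring
        _ ≤ _ := hLmono _ _ (by omega)
        _ ≤ _ := hLε.trans hxK
    have h3 : (K:ℝ) / L ^ E2 ≤ K1 * L := by nlinarith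
    calc (K:ℝ) = (K / L ^ E2) * L ^ E2 := by field_simp
      _ ≤ (K1 * L) * L ^ E2 := by gcongr
      _ = _ := by ring
  -- `Q`, `z`
  set Q := ⌊L ^ E1⌋₊ with hQ
  have hQle : (Q:ℝ) ≤ L ^ E1 := Nat.floor_le (by positivity)
  have hQ1 : 1 ≤ Q := Nat.le_floor (by simpa using hLp E1)
  have hQr : (1:ℝ) ≤ Q := by exact_mod_cast hQ1
  have hQge : L ^ E1 ≤ 2 * Q := by
    have := Nat.lt_floor_add_one (L ^ E1)
    rw [← hQ] at this
    linarith
  set z := ⌊L ^ E⌋₊ with hz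
  have hzle : (z:ℝ) ≤ L ^ E := Nat.floor_le (by positivity)
  have hQz : Q ≤ z := Nat.floor_le_floor (hLmono _ _ hE)
  -- the function
  have hfour : FourierHyp (ff x Q) x E1 E3 := by
    intro q hq hqL b hb β hβ
    exact hff x hx4 Q hQ1 hQle q (mem_Icc.mpr ⟨hq, Nat.le_floor hqL⟩) b hb β hβ
  have hsq : ∑ n ∈ Icc 1 x, ‖ff x Q n‖ ^ 2 ≤ x * L ^ 2 := by
    refine (hC x Q (by omega) hQ1).trans ?_
    have h1 : Real.log Q ≤ E1 * Real.log L := by
      rw [← Real.log_pow]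
      exact Real.log_le_log (by linarith) hQle
    have h2 : (1 + Real.log Q) ^ 2 ≤ L := by
      have h0 : 0 ≤ Real.log Q := Real.log_nonneg hQr
      calc (1 + Real.log Q) ^ 2 ≤ (1 + E1 * Real.log L) ^ 2 := by gcongr
        _ ≤ L := hll
    have h3 : (Q:ℝ) ^ 8 ≤ x := by
      calc (Q:ℝ) ^ 8 ≤ (L ^ E1) ^ 8 := by gcongr
        _ = L ^ (8 * E1) := by rw [← pow_mul]; congr 1; ring
        _ ≤ x := hL8
    calc C * (x * (1 + Real.log Q) ^ 2 + (Q:ℝ) ^ 8)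
        ≤ |C| * (x * L + x * L) := by
          apply mul_le_mul (le_abs_self C) _ (by positivity) (abs_nonneg C)
          have : (x:ℝ) ≤ x * L := by nlinarith
          gcongr
          linarith
      _ = (2 * |C|) * (x * L) := by ring
      _ ≤ L * (x * L) := by gcongr
      _ = x * L ^ 2 := by ring
  have hRB : ∀ B0 : ℕ, B0 ≤ B → ∀ k ∈ Icc 1 K, |((R.eval (k : ℤ) : ℤ) : ℝ)| ≤
      (K : ℝ) ^ j / L ^ B0 := by
    intro B0 hB0 k hk
    refine (hR k hk).trans ?_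
    apply div_le_div_of_nonneg_left hKj.le (hLp0 _) (hLmono _ _ hB0)
  have hmain := hcore x hx1 (ff x Q) (fun n hn => ff_zero_of_gt hn) hfour hsq D K K1 A a0 R σ hDK
    hxDK hxK hK1K hKK1 (le_trans (by gcongr; omega) hAD) haA
    (fun k hk => hRB B1 (by omega) k (by rw [mem_Ioc] at hk; rw [mem_Icc]; omega)) hσ
  have hs := hsing x hx2 Q z A D a0 R σ hRj hσ hQge hQle hQz hzle hxA hAxn
    ((hLmono _ _ (by omega)).trans hLBD)
  have hg := hggm x hx3 Q A D a0 R σ hRj hσ hQ1 hQle hxA hD1n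
  -- lower bound for the values
  set y : ℝ := x / (2 * L ^ (E0 + j * (E2 + 1))) with hy
  have hX0 := hLp0 (E0 + j * (E2 + 1))
  have hy3 : 3 ≤ y := by
    rw [hy, le_div_iff₀ (by positivity)]
    calc 3 * (2 * L ^ (E0 + j * (E2 + 1))) = 6 * L ^ (E0 + j * (E2 + 1)) := by ring
      _ ≤ L ^ 2 * L ^ (E0 + j * (E2 + 1)) := by
          gcongr
          nlinarith
      _ = L ^ (E0 + j * (E2 + 1) + 2) := by ring
      _ ≤ x := hLy
  have hRabs : ∀ k ∈ Icc 1 K, |((R.eval (k : ℤ) : ℤ) : ℝ)| ≤ (K : ℝ) ^ j / L ^ B := hR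
  have hval : ∀ a ∈ Ioc a0 (a0 + A), ∀ d ∈ Ioc D (2 * D), ∀ k ∈ Ioc K1 K,
      y ≤ (((FF R j σ a d).eval (k : ℤ) : ℤ) : ℝ) := by
    intro a ha d hd k hk
    rw [mem_Ioc] at ha hd hk
    have hRk := abs_le.mp (hRabs k (by rw [mem_Icc]; omega))
    rw [FF_eval]
    push_cast
    have hDKx : (D:ℝ) * (K:ℝ) ^ j ≥ x / L ^ E0 := by
      rw [ge_iff_le, div_le_iff₀ (hLp0 _)]; exact hxDK
    have hda : (D:ℝ) ≤ d := by exact_mod_cast hd.1.le
    have hdb : (d:ℝ) ≤ 2 * D := by exact_mod_cast hd.2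
    have hkK1 : (K1:ℝ) ≤ k := by exact_mod_cast hk.1.le
    have hkK : (k:ℝ) ≤ K := by exact_mod_cast hk.2
    have hRD : (K : ℝ) ^ j / L ^ B ≤ x / L ^ (2 * B) := by
      rw [div_le_div_iff₀ (hLp0 _) (hLp0 _)]
      calc (K:ℝ) ^ j * L ^ (2 * B) = ((K:ℝ) ^ j * L ^ B) * L ^ B := by ring
        _ ≤ ((K:ℝ) ^ j * D) * L ^ B := by gcongr
        _ = (D * (K:ℝ) ^ j) * L ^ B := by ring
        _ ≤ x * L ^ B := by gcongr
    have hR2 : (x:ℝ) / L ^ (2 * B) ≤ y := by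
      rw [hy]
      apply div_le_div_of_nonneg_left hx0'.le (by positivity)
      calc 2 * L ^ (E0 + j * (E2 + 1)) ≤ L ^ 1 * L ^ (E0 + j * (E2 + 1)) := by
            rw [pow_one]; gcongr; linarith
        _ = L ^ (1 + (E0 + j * (E2 + 1))) := (pow_add L 1 _).symm
        _ ≤ _ := hLmono _ _ (by omega)
    have hy2 : 2 * y = x / L ^ (E0 + j * (E2 + 1)) := by
      rw [hy]; field_simp
    rcases hboxP with ⟨rfl, h3⟩ | ⟨rfl, h3, h4⟩
    · have h5 : 2 * y ≤ (D:ℝ) * (K1:ℝ) ^ j := by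
        have h6 : (K:ℝ) ^ j ≤ (K1:ℝ) ^ j * L ^ (j * (E2 + 1)) := by
          calc (K:ℝ) ^ j ≤ (K1 * L ^ (E2 + 1)) ^ j := by gcongr
            _ = _ := by rw [mul_pow, ← pow_mul, mul_comm (E2 + 1) j]
        rw [hy2, div_le_iff₀ hX0]
        calc (x:ℝ) ≤ D * (K:ℝ) ^ j * L ^ E0 := hxDK
          _ ≤ D * ((K1:ℝ) ^ j * L ^ (j * (E2 + 1))) * L ^ E0 := by gcongr
          _ = _ := by rw [pow_add]; ring
      have h6 : (D:ℝ) * (K1:ℝ) ^ j ≤ d * (k:ℝ) ^ j := by gcongr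
      have h7 : (0:ℝ) ≤ a := Nat.cast_nonneg _
      have h8 : ((1 : ℤ) : ℝ) = 1 := by norm_num
      rw [h8]
      linarith [hRk.1]
    · have h5 : (4:ℝ) * D * (K:ℝ) ^ j ≤ a0 := by exact_mod_cast h3
      have h6 : (d:ℝ) * (k:ℝ) ^ j ≤ 2 * D * (K:ℝ) ^ j := by gcongr
      have h7 : (a0:ℝ) ≤ a := by exact_mod_cast ha.1.le
      have h8 : ((-1 : ℤ) : ℝ) = -1 := by norm_num
      rw [h8]
      have h9 : 2 * y ≤ D * (K:ℝ) ^ j := by
        rw [hy2, div_le_iff₀ hX0]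
        calc (x:ℝ) ≤ D * (K:ℝ) ^ j * L ^ E0 := hxDK
          _ ≤ D * (K:ℝ) ^ j * L ^ (E0 + j * (E2 + 1)) := by
            gcongr
            omega
      linarith [hRk.1]
  -- variation
  set M : ℝ := 2 * D * (j * (K:ℝ) ^ (j - 1)) + 2 * ((K : ℝ) ^ j / L ^ B) with hM
  have hM0 : 0 ≤ M := by positivity
  have hvar : ∀ a ∈ Ioc a0 (a0 + A), ∀ d ∈ Ioc D (2 * D), ∀ k ∈ Ioc K1 K, k + 1 ∈ Ioc K1 K →
      |(((FF R j σ a d).eval ((k + 1 : ℕ) : ℤ) : ℤ) : ℝ) - (((FF R j σ a d).eval (k : ℤ) : ℤ) : ℝ)|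
        ≤ M := by
    intro a ha d hd k hk hk1
    rw [mem_Ioc] at ha hd hk hk1
    have h1 := hRabs k (by rw [mem_Icc]; omega)
    have h2 := hRabs (k + 1) (by rw [mem_Icc]; omega)
    rw [FF_eval, FF_eval]
    have h3 := pow_diff j k K hk1.2
    have h3' : ((k:ℝ) + 1) ^ j ≤ (k:ℝ) ^ j + j * (K:ℝ) ^ (j - 1) := by exact_mod_cast h3
    have h4 : (k:ℝ) ^ j ≤ ((k:ℝ) + 1) ^ j := by gcongr; linarith
    have hdb : (d:ℝ) ≤ 2 * D := by exact_mod_cast hd.2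
    have h5 : |(σ:ℝ) * d * (((k:ℝ) + 1) ^ j - (k:ℝ) ^ j)| ≤ 2 * D * (j * (K:ℝ) ^ (j - 1)) := by
      have h6 : |(σ : ℝ)| = 1 := by
        rcases hσ with h | h <;> rw [h] <;> norm_num
      rw [abs_mul, abs_mul, h6, one_mul, abs_of_nonneg (Nat.cast_nonneg d : (0:ℝ) ≤ d),
        abs_of_nonneg (by linarith : (0:ℝ) ≤ ((k:ℝ) + 1) ^ j - (k:ℝ) ^ j)]
      apply mul_le_mul hdb (by linarith) (by linarith) (by positivity)
    have e1 : (((a : ℤ) + R.eval ((k + 1 : ℕ) : ℤ) + σ * d * ((k + 1 : ℕ) : ℤ) ^ j : ℤ) : ℝ) -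
        (((a : ℤ) + R.eval (k : ℤ) + σ * d * (k : ℤ) ^ j : ℤ) : ℝ) =
        (σ:ℝ) * d * (((k:ℝ) + 1) ^ j - (k:ℝ) ^ j) +
        (((R.eval ((k + 1 : ℕ) : ℤ) : ℤ) : ℝ) - ((R.eval (k : ℤ) : ℤ) : ℝ)) := by
      push_cast; ring
    rw [e1]
    refine (abs_add_le _ _).trans ?_
    have h7 := abs_sub (((R.eval ((k + 1 : ℕ) : ℤ) : ℤ) : ℝ)) ((R.eval (k : ℤ) : ℤ) : ℝ)
    rw [hM]
    linarith
  -- model error
  have hmodel : 4 * (Q : ℝ) ^ 2 * (K * M / y + 1) ≤ K / L ^ (U + 2) := by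
    have hQ2 : (Q:ℝ) ^ 2 ≤ L ^ (2 * E1) := by
      calc (Q:ℝ) ^ 2 ≤ (L ^ E1) ^ 2 := by gcongr
        _ = _ := by rw [← pow_mul]; congr 1; ring
    have hy' : 1 / y = 2 * L ^ (E0 + j * (E2 + 1)) / x := by
      rw [hy]; field_simp
    have m1 : K * (2 * D * (j * (K:ℝ) ^ (j - 1))) / y ≤ 4 * j * L ^ (E0 + j * (E2 + 1)) := by
      have hKp : (K:ℝ) * (K:ℝ) ^ (j - 1) = (K:ℝ) ^ j := by
        rw [← pow_succ']; congr 1; omega
      calc K * (2 * D * (j * (K:ℝ) ^ (j - 1))) / y = 2 * j * (D * (K * (K:ℝ) ^ (j - 1))) * (1 / y) := by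
            ring
        _ = 2 * j * (D * (K:ℝ) ^ j) * (2 * L ^ (E0 + j * (E2 + 1)) / x) := by rw [hKp, hy']
        _ ≤ 2 * j * x * (2 * L ^ (E0 + j * (E2 + 1)) / x) := by gcongr
        _ = _ := by field_simp; ring
    have m2 : K * (2 * ((K : ℝ) ^ j / L ^ B)) / y ≤ 4 * K * L ^ (E0 + j * (E2 + 1)) / L ^ (2 * B) := by
      have hKD : (K:ℝ) ^ j ≤ x / L ^ B := by
        rw [le_div_iff₀ (hLp0 _)]
        calc (K:ℝ) ^ j * L ^ B ≤ (K:ℝ) ^ j * D := by gcongr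
          _ = D * (K:ℝ) ^ j := by ring
          _ ≤ x := hDK'
      calc K * (2 * ((K : ℝ) ^ j / L ^ B)) / y = 2 * K * ((K:ℝ) ^ j / L ^ B) * (1 / y) := by ring
        _ ≤ 2 * K * ((x / L ^ B) / L ^ B) * (2 * L ^ (E0 + j * (E2 + 1)) / x) := by
            rw [hy']; gcongr
        _ = _ := by
            rw [show 2 * B = B + B by ring, pow_add L B B]
            field_simp
            ring
    have m3 : K * M / y + 1 ≤ 5 * j * L ^ (E0 + j * (E2 + 1)) +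
        4 * K * L ^ (E0 + j * (E2 + 1)) / L ^ (2 * B) := by
      have h1 : K * M / y = K * (2 * D * (j * (K:ℝ) ^ (j - 1))) / y +
          K * (2 * ((K : ℝ) ^ j / L ^ B)) / y := by rw [hM]; ring
      rw [h1]
      have h2 : (1:ℝ) ≤ j * L ^ (E0 + j * (E2 + 1)) := by
        calc (1:ℝ) = 1 * 1 := by ring
          _ ≤ j * L ^ (E0 + j * (E2 + 1)) := by
            apply mul_le_mul hj1 (hLp _) (by norm_num) (by positivity)
      linarith
    calc 4 * (Q : ℝ) ^ 2 * (K * M / y + 1)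
        ≤ 4 * L ^ (2 * E1) * (5 * j * L ^ (E0 + j * (E2 + 1)) +
          4 * K * L ^ (E0 + j * (E2 + 1)) / L ^ (2 * B)) := by
          gcongr
      _ = 20 * j * L ^ (2 * E1 + E0 + j * (E2 + 1)) +
          16 * K * L ^ (2 * E1 + E0 + j * (E2 + 1)) / L ^ (2 * B) := by
          rw [show 2 * E1 + E0 + j * (E2 + 1) = 2 * E1 + (E0 + j * (E2 + 1)) by ring,
            pow_add L (2 * E1)]
          ring
      _ ≤ (K / L ^ (U + 2)) / 2 + (K / L ^ (U + 2)) / 2 := by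
          apply add_le_add
          · rw [div_div, le_div_iff₀ (by positivity)]
            calc 20 * (j:ℝ) * L ^ (2 * E1 + E0 + j * (E2 + 1)) * (L ^ (U + 2) * 2)
                = (40 * j) * L ^ (2 * E1 + E0 + j * (E2 + 1) + U + 2) := by
                  rw [show 2 * E1 + E0 + j * (E2 + 1) + U + 2 =
                    2 * E1 + E0 + j * (E2 + 1) + (U + 2) by ring, pow_add]; ring
              _ ≤ L * L ^ (2 * E1 + E0 + j * (E2 + 1) + U + 2) := by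
                  gcongr
                  linarith
              _ = L ^ (2 * E1 + E0 + j * (E2 + 1) + U + 3) := by ring
              _ ≤ L ^ (2 * E1 + E0 + j * (E2 + 1) + E2 + 4) := hLmono _ _ (by omega)
              _ ≤ K := hLε.trans hxK
          · rw [div_div, div_le_div_iff₀ (hLp0 _) (by positivity)]
            calc 16 * (K:ℝ) * L ^ (2 * E1 + E0 + j * (E2 + 1)) * (L ^ (U + 2) * 2)
                = K * (32 * L ^ (2 * E1 + E0 + j * (E2 + 1) + (U + 2))) := by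
                  rw [pow_add L _ (U + 2)]; ring
              _ ≤ K * (L * L ^ (2 * E1 + E0 + j * (E2 + 1) + (U + 2))) := by
                  gcongr; linarith
              _ = K * L ^ (2 * E1 + E0 + j * (E2 + 1) + (U + 2) + 1) := by
                  rw [pow_succ L]; ring
              _ ≤ K * L ^ (2 * B) := by
                  gcongr
                  omega
      _ = _ := by ring
  -- pointwise
  have hpt : ∀ ad ∈ (Ioc a0 (a0 + A)) ×ˢ (Ioc D (2 * D)),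
      |pv (FF R j σ ad.1 ad.2) K - SS z (FF R j σ ad.1 ad.2) * lF (FF R j σ ad.1 ad.2) K| ≤
      (K1 + K / L ^ (U + 2)) + ‖∑ k ∈ Ioc K1 K, fz (ff x Q) ((FF R j σ ad.1 ad.2).eval (k : ℤ))‖ +
      |GG Q (FF R j σ ad.1 ad.2) - SS z (FF R j σ ad.1 ad.2)| * (K + 2 * K1) +
      |GG Q (FF R j σ ad.1 ad.2)| * (2 * K1) := by
    intro ad had
    rw [mem_product] at had
    obtain ⟨ha, hd⟩ := had
    set F := FF R j σ ad.1 ad.2 with hF
    have hv := hval ad.1 ha ad.2 hd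
    have hub : ∀ k ∈ Icc 1 K, F.eval (k : ℤ) ≤ x := by
      intro k hk
      have hRk : |R.eval (k : ℤ)| ≤ ((K ^ j : ℕ) : ℤ) := by
        have h1 := hR k hk
        have h2 : (K : ℝ) ^ j / L ^ B ≤ ((K ^ j : ℕ) : ℝ) := by
          push_cast
          exact div_le_self hKj.le (hLp B)
        exact_mod_cast h1.trans h2
      have hRk' := abs_le.mp hRk
      rw [mem_Ioc] at ha hd
      rw [mem_Icc] at hk
      rw [hF, FF_eval]
      have h1 : k ^ j ≤ K ^ j := Nat.pow_le_pow_left hk.2 j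
      have h2 : ad.2 * k ^ j ≤ 2 * D * K ^ j := Nat.mul_le_mul hd.2 h1
      have h2' : ((ad.2 : ℤ) * (k : ℤ) ^ j) ≤ 2 * D * ((K ^ j : ℕ) : ℤ) := by exact_mod_cast h2
      have h0 : (0:ℤ) ≤ (ad.2 : ℤ) * (k : ℤ) ^ j := by positivity
      have ha1 : (ad.1 : ℤ) ≤ a0 + A := by exact_mod_cast ha.2
      rcases hboxP with ⟨rfl, h3⟩ | ⟨rfl, h3, h4⟩
      · have h3' : (a0 : ℤ) + A + 2 * D * ((K ^ j : ℕ) : ℤ) + ((K ^ j : ℕ) : ℤ) ≤ x := by
          exact_mod_cast h3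
        have : (ad.1 : ℤ) + R.eval (k : ℤ) + 1 * ad.2 * (k : ℤ) ^ j =
            ad.1 + R.eval (k : ℤ) + ad.2 * (k : ℤ) ^ j := by ring
        rw [this]
        linarith [hRk'.1, hRk'.2]
      · have h4' : (a0 : ℤ) + A + ((K ^ j : ℕ) : ℤ) ≤ x := by exact_mod_cast h4
        have : (ad.1 : ℤ) + R.eval (k : ℤ) + -1 * ad.2 * (k : ℤ) ^ j =
            ad.1 + R.eval (k : ℤ) - ad.2 * (k : ℤ) ^ j := by ring
        rw [this]
        linarith [hRk'.1, hRk'.2]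
    have hge2 : ∀ k ∈ Ioc K1 K, 2 ≤ F.eval (k : ℤ) := by
      intro k hk
      have h1 := hv k hk
      have h2 : (2:ℝ) ≤ ((F.eval (k : ℤ) : ℤ) : ℝ) := by linarith
      exact_mod_cast h2
    -- count
    have hIcc : Icc 1 K = Icc 1 K1 ∪ Ioc K1 K := by
      ext k; simp only [mem_union, mem_Icc, mem_Ioc]; omega
    have hdisj : Disjoint (Icc 1 K1) (Ioc K1 K) := by
      rw [disjoint_left]
      intro k hk hk2
      rw [mem_Icc] at hk; rw [mem_Ioc] at hk2; omega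
    set pr : ℕ → ℝ := fun k => if (F.eval (k : ℤ)).toNat.Prime then 1 else 0 with hpr
    have hpv : pv F K = ∑ k ∈ Icc 1 K1, pr k + ∑ k ∈ Ioc K1 K, pr k := by
      unfold pv
      rw [card_filter]
      push_cast
      rw [hIcc, sum_union hdisj]
    set S1 : ℝ := ∑ k ∈ Ioc K1 K, 1 / Real.log ((F.eval (k : ℤ) : ℤ) : ℝ) with hS1
    set S0 : ℝ := ∑ k ∈ (Icc 1 K1).filter (fun k : ℕ => 2 ≤ F.eval (k : ℤ)),
      1 / Real.log ((F.eval (k : ℤ) : ℤ) : ℝ) with hS0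
    have hlF : lF F K = S0 + S1 := by
      unfold lF
      rw [hIcc, filter_union, sum_union (disjoint_filter_filter hdisj), hS1]
      congr 2
      rw [filter_true_of_mem]
      exact hge2
    have hinv : ∀ k : ℕ, 2 ≤ F.eval (k : ℤ) → 0 ≤ 1 / Real.log ((F.eval (k : ℤ) : ℤ) : ℝ) ∧
        1 / Real.log ((F.eval (k : ℤ) : ℤ) : ℝ) ≤ 2 := by
      intro k hk
      have h1 : (2:ℝ) ≤ ((F.eval (k : ℤ) : ℤ) : ℝ) := by exact_mod_cast hk
      have h2 : Real.log 2 ≤ Real.log ((F.eval (k : ℤ) : ℤ) : ℝ) := Real.log_le_log (by norm_num) h1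
      have h3 := Real.log_two_gt_d9
      constructor
      · positivity
      · rw [div_le_iff₀ (by linarith)]
        linarith
    have hS0b : 0 ≤ S0 ∧ S0 ≤ 2 * K1 := by
      constructor
      · exact sum_nonneg fun k hk => (hinv k (mem_filter.mp hk).2).1
      · calc S0 ≤ ∑ k ∈ (Icc 1 K1).filter (fun k : ℕ => 2 ≤ F.eval (k : ℤ)), (2:ℝ) :=
              sum_le_sum fun k hk => (hinv k (mem_filter.mp hk).2).2
          _ ≤ ∑ k ∈ Icc 1 K1, (2:ℝ) :=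
              sum_le_sum_of_subset_of_nonneg (filter_subset _ _) fun _ _ _ => by norm_num
          _ = 2 * K1 := by rw [sum_const, Nat.card_Icc, nsmul_eq_mul, Nat.add_sub_cancel]; ring
    have hS1b : 0 ≤ S1 ∧ S1 ≤ K := by
      have h1 : ∀ k ∈ Ioc K1 K, 1 / Real.log ((F.eval (k : ℤ) : ℤ) : ℝ) ≤ 1 := by
        intro k hk
        have h2 := hv k hk
        have h3 : (3:ℝ) ≤ ((F.eval (k : ℤ) : ℤ) : ℝ) := by linarith
        have h4 : 1 ≤ Real.log ((F.eval (k : ℤ) : ℤ) : ℝ) := by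
          rw [Real.le_log_iff_exp_le (by linarith)]
          have := Real.exp_one_lt_d9
          linarith
        rw [div_le_one (by linarith)]
        exact h4
      constructor
      · exact sum_nonneg fun k hk => (hinv k (hge2 k hk)).1
      · calc S1 ≤ ∑ k ∈ Ioc K1 K, (1:ℝ) := sum_le_sum h1
          _ = ((K - K1 : ℕ) : ℝ) := by simp
          _ ≤ K := by exact_mod_cast Nat.sub_le K K1
    have hP0 : 0 ≤ ∑ k ∈ Icc 1 K1, pr k ∧ ∑ k ∈ Icc 1 K1, pr k ≤ K1 := by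
      constructor
      · exact sum_nonneg fun k _ => by simp only [hpr]; split_ifs <;> norm_num
      · calc ∑ k ∈ Icc 1 K1, pr k ≤ ∑ k ∈ Icc 1 K1, (1:ℝ) := sum_le_sum fun k _ => by
              simp only [hpr]; split_ifs <;> norm_num
          _ = K1 := by simp
    -- main decomposition
    have hdecomp : (((∑ k ∈ Ioc K1 K, pr k : ℝ)) : ℂ) =
        ∑ k ∈ Ioc K1 K, fz (ff x Q) (F.eval (k : ℤ)) +
        ∑ k ∈ Ioc K1 K, gg Q (F.eval (k : ℤ)).toNat / (Real.log ((F.eval (k : ℤ) : ℤ) : ℝ) : ℂ) := by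
      rw [← sum_add_distrib]
      push_cast
      refine sum_congr rfl fun k hk => ?_
      have h1 := hge2 k hk
      have h2 := hub k (by rw [mem_Ioc] at hk; rw [mem_Icc]; omega)
      unfold fz
      rw [if_pos (by omega)]
      unfold ff
      rw [if_pos (by omega), hpr]
      have h3 : (((F.eval (k : ℤ)).toNat : ℕ) : ℝ) = ((F.eval (k : ℤ) : ℤ) : ℝ) := by
        have : (((F.eval (k : ℤ)).toNat : ℕ) : ℤ) = F.eval (k : ℤ) := Int.toNat_of_nonneg (by omega)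
        exact_mod_cast this
      rw [h3]
      simp only []
      split_ifs <;> push_cast <;> ring
    have hmod := modelP F Q K1 K y M hQ1 hK1K hy3 hM0 hv (fun k hk hk1 =>
      hvar ad.1 ha ad.2 hd k hk hk1)
    rw [gq_eq] at hmod
    have hmod2 := hmod.trans hmodel
    have hcomb : |∑ k ∈ Ioc K1 K, pr k - GG Q F * S1| ≤
        ‖∑ k ∈ Ioc K1 K, fz (ff x Q) (F.eval (k : ℤ))‖ + K / L ^ (U + 2) := by
      have h1 : ((∑ k ∈ Ioc K1 K, pr k - GG Q F * S1 : ℝ) : ℂ) =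
          ∑ k ∈ Ioc K1 K, fz (ff x Q) (F.eval (k : ℤ)) +
          (∑ k ∈ Ioc K1 K, gg Q (F.eval (k : ℤ)).toNat / (Real.log ((F.eval (k : ℤ) : ℤ) : ℝ) : ℂ) -
          (GG Q F : ℂ) * ∑ k ∈ Ioc K1 K, ((1 / Real.log ((F.eval (k : ℤ) : ℤ) : ℝ) : ℝ) : ℂ)) := by
        rw [Complex.ofReal_sub, hdecomp, Complex.ofReal_mul, hS1, Complex.ofReal_sum]
        ring
      have h2 : |∑ k ∈ Ioc K1 K, pr k - GG Q F * S1| =
          ‖((∑ k ∈ Ioc K1 K, pr k - GG Q F * S1 : ℝ) : ℂ)‖ := by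
        rw [Complex.norm_real, Real.norm_eq_abs]
      rw [h2, h1]
      exact (norm_add_le _ _).trans (add_le_add le_rfl hmod2)
    rw [hpv, hlF]
    have e1 : ∑ k ∈ Icc 1 K1, pr k + ∑ k ∈ Ioc K1 K, pr k - SS z F * (S0 + S1) =
        ∑ k ∈ Icc 1 K1, pr k + (∑ k ∈ Ioc K1 K, pr k - GG Q F * S1) +
        (GG Q F - SS z F) * (S1 + S0) + (-(GG Q F * S0)) := by ring
    rw [e1]
    have a1 := abs_add_le (∑ k ∈ Icc 1 K1, pr k + (∑ k ∈ Ioc K1 K, pr k - GG Q F * S1) +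
        (GG Q F - SS z F) * (S1 + S0)) (-(GG Q F * S0))
    have a2 := abs_add_le (∑ k ∈ Icc 1 K1, pr k + (∑ k ∈ Ioc K1 K, pr k - GG Q F * S1))
        ((GG Q F - SS z F) * (S1 + S0))
    have a3 := abs_add_le (∑ k ∈ Icc 1 K1, pr k) (∑ k ∈ Ioc K1 K, pr k - GG Q F * S1)
    have b1 : |∑ k ∈ Icc 1 K1, pr k| ≤ K1 := by rw [abs_of_nonneg hP0.1]; exact hP0.2
    have b2 : |(GG Q F - SS z F) * (S1 + S0)| ≤ |GG Q F - SS z F| * (K + 2 * K1) := by
      rw [abs_mul]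
      apply mul_le_mul_of_nonneg_left _ (abs_nonneg _)
      rw [abs_of_nonneg (by linarith [hS0b.1, hS1b.1])]
      linarith [hS0b.2, hS1b.2]
    have b3 : |-(GG Q F * S0)| ≤ |GG Q F| * (2 * K1) := by
      rw [abs_neg, abs_mul]
      apply mul_le_mul_of_nonneg_left _ (abs_nonneg _)
      rw [abs_of_nonneg hS0b.1]
      exact hS0b.2
    linarith
  -- summation
  have hcard : (((Ioc a0 (a0 + A)) ×ˢ (Ioc D (2 * D))).card : ℝ) = A * D := by
    rw [card_product, Nat.card_Ioc, Nat.card_Ioc, show a0 + A - a0 = A by omega,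
      show 2 * D - D = D by omega]; push_cast; ring
  have hL1sum : ∑ ad ∈ (Ioc a0 (a0 + A)) ×ˢ (Ioc D (2 * D)),
      ‖∑ k ∈ Ioc K1 K, fz (ff x Q) ((FF R j σ ad.1 ad.2).eval (k : ℤ))‖ ≤
      A * D * K / L ^ (U + 2) := by
    rw [← sum_product'] at hmain
    have h2 := sq_sum_le_card_mul_sum_sq (s := (Ioc a0 (a0 + A)) ×ˢ (Ioc D (2 * D)))
      (f := fun ad : ℕ × ℕ => ‖∑ k ∈ Ioc K1 K, fz (ff x Q) ((FF R j σ ad.1 ad.2).eval (k : ℤ))‖)
    rw [hcard] at h2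
    apply le_of_sq_le_sq _ (by positivity)
    refine h2.trans ?_
    calc (A:ℝ) * D * _ ≤ A * D * (A * x * ((K : ℝ) ^ 2 / (K : ℝ) ^ j) / L ^ (2 * U + E0 + 8)) := by
          gcongr
      _ ≤ A * D * (A * (D * (K:ℝ) ^ j * L ^ E0) * ((K : ℝ) ^ 2 / (K : ℝ) ^ j) /
            L ^ (2 * U + E0 + 8)) := by gcongr
      _ = (A * D * K) ^ 2 / L ^ (2 * U + 8) := by
          rw [show 2 * U + E0 + 8 = (2 * U + 8) + E0 by ring, pow_add L _ E0]
          field_simp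
      _ ≤ (A * D * K) ^ 2 / L ^ (2 * (U + 2)) := by
          gcongr
          · omega
      _ = _ := by rw [div_pow, ← pow_mul, mul_comm 2 (U + 2)]
  rw [← sum_product'] at hs hg ⊢
  refine (sum_le_sum hpt).trans ?_
  rw [sum_add_distrib, sum_add_distrib, sum_add_distrib, sum_const, nsmul_eq_mul, hcard,
    ← sum_mul, ← sum_mul]
  have hK1K' : (K:ℝ) + 2 * K1 ≤ 3 * K := by
    have : (K1:ℝ) ≤ K := by exact_mod_cast hK1K
    linarith
  have hK1nn : (0:ℝ) ≤ K1 := Nat.cast_nonneg _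
  calc (A:ℝ) * D * (K1 + K / L ^ (U + 2)) + _ + _ * (K + 2 * K1) + _ * (2 * K1)
      ≤ A * D * (K / L ^ E2 + K / L ^ (U + 2)) + A * D * K / L ^ (U + 2) +
        (A * D / L ^ (U + 3)) * (3 * K) + (A * D * L) * (2 * (K / L ^ E2)) := by
        gcongr
    _ ≤ A * D * (K / L ^ (U + 2) + K / L ^ (U + 2)) + A * D * K / L ^ (U + 2) +
        (A * D / L ^ (U + 2)) * (3 * K) + (A * D * L) * (2 * (K / (L ^ (U + 2) * L))) := by
        have h1 : L ^ (U + 2) ≤ L ^ E2 := hLmono _ _ (by omega)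
        have h2 : L ^ (U + 2) ≤ L ^ (U + 3) := hLmono _ _ (by omega)
        have h3 : L ^ (U + 2) * L ≤ L ^ E2 := by
          rw [← pow_succ]; exact hLmono _ _ (by omega)
        gcongr
    _ = (A * D * K / L ^ U) * (8 / L ^ 2) := by
        rw [pow_add L U 2]
        field_simp
        ring
    _ ≤ (A * D * K / L ^ U) * 1 := by
        apply mul_le_mul_of_nonneg_left _ (by positivity)
        rw [div_le_one (by positivity)]
        nlinarith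
    _ = _ := mul_one _

end Pool.Agent.H300R2.BH
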