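import Pool.Agent.H300R2.BH.BHcor

/-!
Bridge from the internal to the public formulation.
-/

namespace Pool.Agent.H300R2.BH

open Finset Polynomial Filter
open Pool.Agent.H442R2.EHI (evt_log_pow evt_log_ge)

lemma rho_ne_iff (F : ℤ[X]) (p : ℕ) (hp : p.Prime) :
    rho F p ≠ p ↔ ∃ n : ℤ, ¬ (p : ℤ) ∣ F.eval n := by
  unfold rho
  constructor
  · intro h
    by_contra hcon
    push Not at hcon
    apply h
    have h1 : (range p).filter (fun k : ℕ => (p : ℤ) ∣ F.eval (k : ℤ)) = range p :=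
      filter_true_of_mem (fun k _ => hcon (k : ℤ))
    rw [h1, card_range]
  · rintro ⟨n, hn⟩ h
    apply hn
    have h1 : (range p).filter (fun k : ℕ => (p : ℤ) ∣ F.eval (k : ℤ)) = range p := by
      apply eq_of_subset_of_card_le (filter_subset _ _)
      rw [h, card_range]
    have hp0 : (0:ℤ) < p := by exact_mod_cast hp.pos
    have h2 : (n % p).toNat ∈ range p := by
      rw [mem_range]
      have h3 := Int.emod_nonneg n hp0.ne'
      have h4 := Int.emod_lt_of_pos n hp0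
      omega
    rw [← h1, mem_filter] at h2
    have h3 : (((n % p).toNat : ℕ) : ℤ) = n % p := Int.toNat_of_nonneg (Int.emod_nonneg n hp0.ne')
    rw [h3] at h2
    have h4 : (p : ℤ) ∣ n - n % p := by
      exact Int.dvd_self_sub_emod
    have h5 := h4.trans (sub_dvd_eval_sub n (n % p) F)
    have h6 := dvd_add h5 h2.2
    rwa [sub_add_cancel] at h6

open Classical in
/-- the main theorem with the constant `C` in place of a power of `log x` -/
theorem bh_pub (j : ℕ) (hj : 1 ≤ j) (ε : ℝ) (hε : 0 < ε) (C : ℝ) (U : ℕ) : ∃ E' : ℕ,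
    ∀ E : ℕ, E' ≤ E →
    ∃ B x0 : ℕ, ∀ x : ℕ, x0 ≤ x → ∀ (K D A a0 : ℕ) (R : ℤ[X]) (σ : ℤ), R.natDegree < j →
    BoxP j x K D A a0 σ → (x : ℝ) ≤ C * D * (K : ℝ) ^ j → (x : ℝ) ^ ε ≤ K →
    x * Real.log x ^ B ≤ (A : ℝ) * D →
    (∀ k ∈ Icc 1 K, |((R.eval (k : ℤ) : ℤ) : ℝ)| ≤ (K : ℝ) ^ j / Real.log x ^ B) →
    ∑ a ∈ Ioc a0 (a0 + A), ∑ d ∈ Ioc D (2 * D),
      |pv (FF R j σ a d) K - SS ⌊Real.log x ^ E⌋₊ (FF R j σ a d) * lF (FF R j σ a d) K| ≤
      A * D * K / Real.log x ^ U ∧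
    ((((Ioc a0 (a0 + A)) ×ˢ (Ioc D (2 * D))).filter (fun ad : ℕ × ℕ =>
      (∀ p : ℕ, p.Prime → p ≤ ⌊Real.log x ^ E⌋₊ → ∃ n : ℤ, ¬ (p : ℤ) ∣
        (FF R j σ ad.1 ad.2).eval n) ∧
      SS ⌊Real.log x ^ E⌋₊ (FF R j σ ad.1 ad.2) * lF (FF R j σ ad.1 ad.2) K / Real.log x ^ U <
      |pv (FF R j σ ad.1 ad.2) K -
        SS ⌊Real.log x ^ E⌋₊ (FF R j σ ad.1 ad.2) * lF (FF R j σ ad.1 ad.2) K|)).card : ℝ) ≤
      A * D / Real.log x ^ U := by
  obtain ⟨E', h⟩ := bh_all j hj ε hε 1 U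
  refine ⟨E', fun E hE => ?_⟩
  obtain ⟨B, x1, hb⟩ := h E hE
  obtain ⟨x0, hx0⟩ := eventually_atTop.mp (evt_log_ge C)
  refine ⟨B, max x0 x1, fun x hx K D A a0 R σ hRj hbox hC hK hAD hR => ?_⟩
  have h1 := hb x ((le_max_right _ _).trans hx) K D A a0 R σ hRj hbox (by
    have h2 := hx0 x ((le_max_left _ _).trans hx)
    calc (x:ℝ) ≤ C * D * (K : ℝ) ^ j := hC
      _ = D * (K:ℝ) ^ j * C := by ring
      _ ≤ D * (K:ℝ) ^ j * Real.log x ^ 1 := by
        rw [pow_one]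
        apply mul_le_mul_of_nonneg_left h2 (by positivity)) hK hAD hR
  refine ⟨h1.1, le_trans (le_of_eq ?_) h1.2⟩
  congr 2
  apply filter_congr
  intro ad _
  apply and_congr _ Iff.rfl
  constructor
  · intro h p hp hpz
    exact (rho_ne_iff _ p hp).mpr (h p hp hpz)
  · intro h p hp hpz
    exact (rho_ne_iff _ p hp).mp (h p hp hpz)

end Pool.Agent.H300R2.BH
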