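import Pool.Agent.H300R2.BH.Defs

/-!
Blueprint (statements only, `sorry`).  Never import this file in a hand-in.
-/

namespace Pool.Agent.H300R2.BH.Stubs

open Finset Polynomial
open Pool.Agent.H469R2.NK (e)
open Pool.Agent.H442R2.EHI
open Pool.Agent.H300R2.BH

/-- T1 (MinorP.lean). -/
theorem minorP (N D A G G1 : ℕ) (T : Finset ℕ) (p : ℕ → ℕ) (hp : ∀ k ∈ T, G1 ≤ p k ∧ p k ≤ G)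
    (hG1 : 1 ≤ G1) (hG : G1 ≤ G) (hD : 4 ≤ D) (hN : 8 * D * G ≤ N) (hNA : 8 * A ≤ N)
    (hA : 2 * G ≤ A) (a0 : ℕ) (σ : ℤ) (hσ : σ = 1 ∨ σ = -1) (c : ℕ → ℂ) (w : ℕ → ℕ → ℂ)
    (hw : ∀ k h, ‖w k h‖ ≤ 1) (R : ℝ)
    (hR : ∀ h ∈ range N, c h ≠ 0 →
      (((T ×ˢ T).filter (fun kk : ℕ × ℕ =>
        nint ((((p kk.1 : ℤ) - (p kk.2 : ℤ) : ℤ) : ℝ) * ((h : ℝ) / N)) ≤
          1 / (2 * (D : ℝ)) + (G : ℝ) / (2 * (A : ℝ)))).card : ℝ) ≤ R) :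
    ∑ a ∈ Ioc a0 (a0 + A), ∑ d ∈ Ioc D (2 * D),
      ‖∑ k ∈ T, ∑ h ∈ range N, c h * w k h * e (-(((a : ℝ) + σ * d * p k) * h / N))‖ ^ 2 ≤
      100 * A * N * (R / G1) * ∑ h ∈ range N, ‖c h‖ ^ 2 := by
  sorry

/-- T2 (Count.lean). -/
theorem count_inv (j : ℕ) (hj : 1 ≤ j) (U E2 : ℕ) : ∃ (E : ℕ) (L0 : ℝ), ∀ L : ℝ, L0 ≤ L →
    ∀ K K1 : ℕ, 1 ≤ K → K1 ≤ K → (K : ℝ) ≤ K1 * L ^ E2 → ∀ Δ α : ℝ, 0 ≤ Δ → Δ * L ^ E ≤ 1 →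
    (K : ℝ) ^ 2 / L ^ U < (((Ioc K1 K ×ˢ Ioc K1 K).filter (fun kk : ℕ × ℕ =>
      nint (((((kk.1 ^ j : ℕ) : ℤ) - ((kk.2 ^ j : ℕ) : ℤ) : ℤ) : ℝ) * α) ≤ Δ)).card : ℝ) →
    ∃ q : ℕ, 1 ≤ q ∧ (q : ℝ) ≤ L ^ E ∧ ∃ b : ℤ, |α - (b : ℝ) / (q : ℝ)| ≤ L ^ E / (K : ℝ) ^ j := by
  sorry

/-- T3 (KSumP.lean). -/
theorem ksumP (j : ℕ) (hj : 1 ≤ j) (ε : ℝ) (hε : 0 < ε) (E1 E2 U : ℕ) : ∃ (E4 x0 : ℕ),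
    ∀ x : ℕ, x0 ≤ x →
    ∀ K K1 q r : ℕ, (x : ℝ) ^ ε ≤ K → K ≤ x → K1 ≤ K → (K : ℝ) ≤ K1 * Real.log x ^ E2 → 1 ≤ q →
    (q : ℝ) ≤ Real.log x ^ E1 → ∀ ξ : ℝ, Real.log x ^ E4 ≤ |ξ| → |ξ| ≤ (x : ℝ) ^ 2 →
    ‖∑ k ∈ (Ioc K1 K).filter (fun k => k % q = r),
      ((((k ^ j : ℕ) : ℝ) ^ (-(1 / 2) : ℝ) : ℝ) : ℂ) * e (ξ * Real.log ((k ^ j : ℕ) : ℝ))‖ ^ 2 ≤
      ((K : ℝ) ^ 2 / (K : ℝ) ^ j) / Real.log x ^ U := by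
  sorry

/-- T4 (MajGen.lean). -/
theorem major_gen (E0 E2 E4 E5 U : ℕ) : ∃ (E3 x0 : ℕ), ∀ x : ℕ, x0 ≤ x →
    ∀ (N D G G1 K : ℕ) (δ θ : ℝ) (S : Finset ℤ) (c : ℤ → ℂ) (T : Finset ℕ), 8 * x ≤ N →
    N ≤ 100 * x → 1 ≤ D → D * G ≤ x → (x : ℝ) ≤ D * G * Real.log x ^ E0 → 1 ≤ G1 → G1 ≤ G →
    (G : ℝ) ≤ G1 * Real.log x ^ E2 → 0 ≤ δ → δ ≤ 1 → δ * G ≤ Real.log x ^ E5 →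
    (∀ h ∈ S, |((h : ℝ) + θ) / N| ≤ δ) →
    (N : ℝ) * ∑ h ∈ S, ‖c h‖ ^ 2 ≤ x * Real.log x ^ 2 →
    (∀ h ∈ S, |((h : ℝ) + θ) / N| ≤ Real.log x ^ E3 / x →
      (N : ℝ) * ‖c h‖ ≤ x / Real.log x ^ (2 * E3)) →
    T ⊆ Ioc G1 G → T.card ≤ K →
    (∀ ξ : ℝ, Real.log x ^ E4 ≤ |ξ| → |ξ| ≤ (x : ℝ) ^ 2 →
      ‖∑ m ∈ T, (((m : ℝ) ^ (-(1 / 2) : ℝ) : ℝ) : ℂ) * e (ξ * Real.log m)‖ ^ 2 ≤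
        ((K : ℝ) ^ 2 / G) / Real.log x ^ (2 * U + 2 * E5 + 10)) →
    ∑ d ∈ Ioc D (2 * D), ‖∑ m ∈ T, poly N θ S c ((d : ℝ) * m)‖ ^ 2 ≤
      x * ((K : ℝ) ^ 2 / G) / Real.log x ^ U := by
  sorry

/-- T5 (RPert.lean). -/
theorem rpert (N D G G1 K : ℕ) (hN : 1 ≤ N) (T : Finset ℕ) (p : ℕ → ℕ) (s : ℕ → ℝ)
    (s0 δ θ : ℝ) (S : Finset ℤ) (c : ℤ → ℂ) (W : ℝ) (hD : 1 ≤ D) (hG1 : 1 ≤ G1)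
    (hp : ∀ k ∈ T, G1 ≤ p k ∧ p k ≤ G) (hs : ∀ k ∈ T, |s k| ≤ s0) (hs0 : s0 ≤ D * G1)
    (hDG : 2 * (D : ℝ) * G + s0 ≤ N) (hδ0 : 0 ≤ δ) (hδ : ∀ h ∈ S, |((h : ℝ) + θ) / N| ≤ δ)
    (hW : (N : ℝ) * ∑ h ∈ S, ‖c h‖ ^ 2 ≤ W) (hT : T.card ≤ K) :
    ∑ d ∈ Ioc D (2 * D), ‖∑ k ∈ T, (poly N θ S c ((d : ℝ) * p k + s k) -
      poly N θ S c ((d : ℝ) * p k))‖ ^ 2 ≤
      (K : ℝ) ^ 2 * s0 ^ 2 * (40 * δ ^ 2 / G1 + 600 * δ ^ 3) * W := by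
  sorry

/-- T6 (ModelP.lean). -/
theorem modelP (F : ℤ[X]) (Q K1 K : ℕ) (y M : ℝ) (hQ : 1 ≤ Q) (hK : K1 ≤ K) (hy : 3 ≤ y)
    (hM0 : 0 ≤ M) (hF : ∀ k ∈ Ioc K1 K, y ≤ ((F.eval (k : ℤ) : ℤ) : ℝ))
    (hM : ∀ k ∈ Ioc K1 K, k + 1 ∈ Ioc K1 K →
      |((F.eval ((k + 1 : ℕ) : ℤ) : ℤ) : ℝ) - ((F.eval (k : ℤ) : ℤ) : ℝ)| ≤ M) :
    ‖∑ k ∈ Ioc K1 K, gg Q (F.eval (k : ℤ)).toNat / (Real.log ((F.eval (k : ℤ) : ℤ) : ℝ) : ℂ) -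
      (∑ q ∈ Icc 1 Q, (((ArithmeticFunction.moebius q : ℤ) : ℂ) / (Nat.totient q : ℂ)) * mq F q) *
        ∑ k ∈ Ioc K1 K, ((1 / Real.log ((F.eval (k : ℤ) : ℤ) : ℝ) : ℝ) : ℂ)‖ ≤
      4 * (Q : ℝ) ^ 2 * (K * M / y + 1) := by
  sorry

/-- T7 (SingAlg.lean). -/
theorem gq_eq (F : ℤ[X]) (Q : ℕ) :
    ∑ q ∈ Icc 1 Q, (((ArithmeticFunction.moebius q : ℤ) : ℂ) / (Nat.totient q : ℂ)) * mq F q =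
      (GG Q F : ℂ) := by
  sorry

/-- T8 (SingL2.lean). -/
theorem sing_l2 (j : ℕ) (hj : 1 ≤ j) (R : ℤ[X]) (hR : R.natDegree < j) (σ : ℤ)
    (hσ : σ = 1 ∨ σ = -1) (A D a0 Q Z z : ℕ) (hQ : 1 ≤ Q) (hQZ : Q ≤ Z) (hZA : Z ≤ A)
    (hD : 1 ≤ D) :
    ∑ a ∈ Ioc a0 (a0 + A), ∑ d ∈ Ioc D (2 * D),
      (∑ q ∈ (Ioc Q Z).filter (fun q => Squarefree q ∧ ∀ p ∈ q.primeFactors, p ≤ z),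
        TT (FF R j σ a d) q) ^ 2 ≤
      4 * (A : ℝ) * ((D : ℝ) / Q + 1) * (1 + Real.log Z) ^ (8 * j) + (D : ℝ) * (Z : ℝ) ^ 4 := by
  sorry

/-- T9 (SingTail.lean). -/
theorem tail_pointwise (j : ℕ) (hj : 1 ≤ j) (F : ℤ[X]) (hF : F.natDegree ≤ j) (z Z : ℕ) (hz : 2 ≤ z)
    (hZ : 1 ≤ Z) (y : ℝ) (hy : 1 ≤ y) (hB : (bad z F : ℝ) ≤ y) :
    |SS z F - ∑ q ∈ (Icc 1 Z).filter (fun q => Squarefree q ∧ ∀ p ∈ q.primeFactors, p ≤ z),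
      TT F q| ≤ Real.exp (-(Real.log Z / Real.log z)) * 100 ^ j * (z : ℝ) ^ (3 * j) * y ^ 2 := by
  sorry

/-- T10 (SingExc.lean). -/
theorem exc_count (j : ℕ) (hj : 1 ≤ j) (R : ℤ[X]) (hR : R.natDegree < j) (σ : ℤ)
    (hσ : σ = 1 ∨ σ = -1) (A D a0 z y : ℕ) (hy : 1 ≤ y) (hz : 1 ≤ z) (hyA : y * z ≤ A)
    (hyD : y * z ≤ D) :
    ((((Ioc a0 (a0 + A)) ×ˢ (Ioc D (2 * D))).filter (fun ad : ℕ × ℕ =>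
      y < bad z (FF R j σ ad.1 ad.2))).card : ℝ) ≤ 16 * A * D / y := by
  sorry

/-- T11 (Lam.lean). Fourier coefficients of the Moebius function near rationals. -/
theorem mu_fourier (E1 E : ℕ) : ∃ x0 : ℕ, ∀ x : ℕ, x0 ≤ x → ∀ q : ℕ, 1 ≤ q →
    (q : ℝ) ≤ Real.log x ^ E1 → ∀ b : ℤ, ∀ β : ℝ, |β - (b : ℝ) / (q : ℝ)| ≤ Real.log x ^ E / x →
    ‖∑ n ∈ Icc 1 x, ((ArithmeticFunction.moebius n : ℤ) : ℂ) * e (n * β)‖ ≤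
      x / Real.log x ^ (2 * E) := by
  sorry

/-- T11 (Lam.lean). Fourier coefficients of the Liouville function near rationals. -/
theorem lam_fourier (E1 E : ℕ) : ∃ x0 : ℕ, ∀ x : ℕ, x0 ≤ x → ∀ q : ℕ, 1 ≤ q →
    (q : ℝ) ≤ Real.log x ^ E1 → ∀ b : ℤ, ∀ β : ℝ, |β - (b : ℝ) / (q : ℝ)| ≤ Real.log x ^ E / x →
    ‖∑ n ∈ Icc 1 x, ((-1 : ℂ) ^ (ArithmeticFunction.cardFactors n)) * e (n * β)‖ ≤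
      x / Real.log x ^ (2 * E) := by
  sorry

end Pool.Agent.H300R2.BH.Stubs
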